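import Pool.Agent.Lib.MP_d9512b_co.LG.Main
import Mathlib.Combinatorics.SimpleGraph.LineGraph
import Mathlib.Combinatorics.SimpleGraph.Connectivity.EdgeConnectivity

set_option autoImplicit false
set_option linter.unusedSectionVars false

/-!
Line graphs: finite sets and the line graphs of 3-edge-connected graphs.
-/

namespace Pool.Agent.Lib.MP_d9512b_co.LG63

open Set T3

/-- The theorem for finite sets. -/
theorem line_graphs (n : ℕ) (hn : 1 ≤ n) : ∃ N : ℕ, ∀ (V U : Type) [Fintype V] [DecidableEq V]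
    [Finite U] (G : SimpleGraph V) (e : V → Sym2 U), N ≤ Fintype.card V → Cn3 G → LineOf G e →
    ∃ S : Finset V, S.card = n ∧ ∃ s0 ∈ S, (G.induce (↑S : Set V)).Connected ∧
      (4 ≤ (insert s0 ((↑S : Set V)ᶜ)).ncard ∧
        ∀ X : Finset V, X.card ≤ 2 →
          ((SimpleGraph.fromRel (fun x y : V => ∃ a b, G.Adj a b ∧
              (if a ∈ S then s0 else a) = x ∧ (if b ∈ S then s0 else b) = y)).induce
            (insert s0 ((↑S : Set V)ᶜ) \ (↑X : Set V))).Connected) := by
  obtain ⟨N, hN⟩ := exists_good n hn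
  refine ⟨N, fun V U _ _ _ G e hcard h5 hG => ?_⟩
  obtain ⟨S, hS⟩ := hN V U G e (by rwa [Nat.card_eq_fintype_card]) h5 hG
  have hSS : ((S.toFinite.toFinset : Finset V) : Set V) = S := Set.Finite.coe_toFinset _
  obtain ⟨s0, hs0⟩ := hS.con.1
  refine ⟨S.toFinite.toFinset, ?_, s0, by simpa using hs0, ?_, ?_⟩
  · rw [← Set.ncard_eq_toFinset_card S S.toFinite]
    exact hS.card
  · rw [hSS]
    exact connected_of_con hS.con
  · exact contract_of_good (fun X hX => h5.2 X (by omega)) (by rwa [hSS]) (by simpa using hs0)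

/-- 3-connectedness in terms of finite sets. -/
theorem cn3_of {V : Type} [Fintype V] {G : SimpleGraph V}
    (h : 4 ≤ Fintype.card V ∧
      ∀ X : Finset V, X.card ≤ 2 → (G.induce ((↑X : Set V)ᶜ)).Connected) : Cn3 G := by
  refine ⟨by rw [Nat.card_eq_fintype_card]; exact h.1, ?_⟩
  intro X hX a b ha hb
  have h1 := h.2 X.toFinite.toFinset (by rwa [← Set.ncard_eq_toFinset_card X X.toFinite])
  rw [Set.Finite.coe_toFinset] at h1
  exact rc_of_reachable ⟨a, ha⟩ ⟨b, hb⟩ (h1.preconnected _ _)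

/-- The line graph of a 3-edge-connected graph with at least four edges is 3-connected. -/
theorem cn3_line {U : Type} [Finite U] {H : SimpleGraph U} (hH : H.IsEdgeConnected 3)
    (hc : 4 ≤ Nat.card H.edgeSet) : Cn3 H.lineGraph := by
  refine ⟨hc, ?_⟩
  intro X hX a b ha hb
  obtain ⟨a1, ha1⟩ : ∃ v, v ∈ (a : Sym2 U) := by
    induction h : (a : Sym2 U) with
    | _ p q => exact ⟨p, by simp⟩
  obtain ⟨b1, hb1⟩ : ∃ v, v ∈ (b : Sym2 U) := by
    induction h : (b : Sym2 U) with
    | _ p q => exact ⟨p, by simp⟩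
  have h1 : (Subtype.val '' X : Set (Sym2 U)).encard < 3 := by
    refine (Set.encard_image_le _ _).trans_lt ?_
    rw [← (toFinite X).cast_ncard_eq]
    exact_mod_cast (by omega : X.ncard < 3)
  have h2 := hH a1 b1 h1
  rw [SimpleGraph.reachable_iff_reflTransGen] at h2
  have key : ∀ v, Relation.ReflTransGen (H.deleteEdges (Subtype.val '' X)).Adj a1 v →
      ∀ f : H.edgeSet, f ∉ X → v ∈ (f : Sym2 U) → Rc H.lineGraph Xᶜ a f := by
    intro v hv
    induction hv with
    | refl =>
      intro f hf hvf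
      by_cases haf : a = f
      · subst haf
        exact Rc.refl ha
      · exact (Rc.refl (G := H.lineGraph) (U := Xᶜ) ha).tail
          (SimpleGraph.lineGraph_adj_iff_exists.2 ⟨haf, _, ha1, hvf⟩) hf
    | @tail p q _ hpq ih =>
      intro f hf hvf
      rw [SimpleGraph.deleteEdges_adj] at hpq
      have hg : (⟨s(p, q), hpq.1⟩ : H.edgeSet) ∉ X := fun hm => hpq.2 ⟨_, hm, rfl⟩
      have h3 := ih ⟨s(p, q), hpq.1⟩ hg (by simp)
      by_cases hgf : (⟨s(p, q), hpq.1⟩ : H.edgeSet) = f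
      · rw [← hgf]
        exact h3
      · exact h3.tail (SimpleGraph.lineGraph_adj_iff_exists.2 ⟨hgf, q, by simp, hvf⟩) hf
  exact key b1 h2 b hb hb1

/-- The line graph of a 3-edge-connected graph is a line graph without vertices of degree two. -/
theorem lineOf_line {U : Type} [Finite U] {H : SimpleGraph U} (hH : H.IsEdgeConnected 3) :
    LineOf H.lineGraph (fun f : H.edgeSet => (f : Sym2 U)) := by
  classical
  have := Fintype.ofFinite U
  refine ⟨fun x => H.not_isDiag_of_mem_edgeSet x.2,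
    fun x y => SimpleGraph.lineGraph_adj_iff_exists, ?_⟩
  intro u hu
  have h0 : ∃ x : H.edgeSet, u ∈ (x : Sym2 U) := by
    by_contra h
    push Not at h
    have h1 : {x : H.edgeSet | u ∈ (x : Sym2 U)} = ∅ := by
      ext x
      simp [h x]
    rw [h1, ncard_empty] at hu
    omega
  obtain ⟨⟨x, hx⟩, hux⟩ := h0
  obtain ⟨w, rfl⟩ := Sym2.mem_iff_exists.1 hux
  have huw : u ≠ w := fun h => by
    subst h
    exact H.loopless.irrefl _ hx
  have : Nontrivial U := ⟨⟨u, w, huw⟩⟩
  have h3 : 3 ≤ H.degree u := hH.le_degree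
  have h4 : H.degree u ≤ {x : H.edgeSet | u ∈ (x : Sym2 U)}.ncard := by
    rw [← SimpleGraph.card_incidenceFinset_eq_degree, ← ncard_coe_finset,
      SimpleGraph.coe_incidenceFinset]
    have h5 : H.incidenceSet u ⊆ Subtype.val '' {x : H.edgeSet | u ∈ (x : Sym2 U)} := by
      rintro y ⟨hy, hy'⟩
      exact ⟨⟨y, hy⟩, hy', rfl⟩
    exact (ncard_le_ncard h5 (toFinite _)).trans (ncard_image_le (toFinite _))
  omega

/-- The case of the line graphs of 3-edge-connected graphs. -/
theorem three_edge_connected (n : ℕ) (hn : 1 ≤ n) : ∃ N : ℕ, ∀ (U : Type) [Finite U]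
    (H : SimpleGraph U) [Fintype H.edgeSet] [DecidableEq H.edgeSet],
    N ≤ Fintype.card H.edgeSet → H.IsEdgeConnected 3 →
    ∃ S : Finset H.edgeSet, S.card = n ∧ ∃ s0 ∈ S,
      (H.lineGraph.induce (↑S : Set H.edgeSet)).Connected ∧
      (4 ≤ (insert s0 ((↑S : Set H.edgeSet)ᶜ)).ncard ∧
        ∀ X : Finset H.edgeSet, X.card ≤ 2 →
          ((SimpleGraph.fromRel (fun x y : H.edgeSet => ∃ a b, H.lineGraph.Adj a b ∧
              (if a ∈ S then s0 else a) = x ∧ (if b ∈ S then s0 else b) = y)).induce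
            (insert s0 ((↑S : Set H.edgeSet)ᶜ) \ (↑X : Set H.edgeSet))).Connected) := by
  obtain ⟨N, hN⟩ := line_graphs n hn
  refine ⟨N + 4, fun U _ H _ _ hc hH => ?_⟩
  exact hN _ U H.lineGraph _ (by omega)
    (cn3_line hH (by rw [Nat.card_eq_fintype_card]; omega)) (lineOf_line hH)

end Pool.Agent.Lib.MP_d9512b_co.LG63
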