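import Pool.Agent.Lib.MP_d9512b_co.LG.Line

set_option autoImplicit false
set_option linter.unusedSectionVars false

/-!
Line graphs: a vertex of large degree of the multigraph gives a good set.
-/

namespace Pool.Agent.Lib.MP_d9512b_co.LG63

open Set T3

variable {V U : Type} {G : SimpleGraph V} {e : V → Sym2 U} {W S T F E E' K : Set V}
  {c t f g x y z w k a b : V} {u : U} {n : ℕ}

/-- Sets with a vertex which is neither in them nor next to them have two neighbours outside of a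
set with solid complement. -/
theorem two_nb [Finite V] (h : Sol G Fᶜ) (hE : E ⊆ Fᶜ) (hne : E.Nonempty) (hz : z ∉ F)
    (hzE : z ∉ E) (hzN : z ∉ Nb G E) : 2 ≤ (Nb G E \ F).ncard := by
  by_contra hcon
  obtain ⟨x, hx⟩ := hne
  have h1 : (Nb G E \ F).ncard ≤ 1 := by omega
  have hcl : ∀ y, (∀ b ∈ Nb G E \ F, b = y) → x ≠ y → z ≠ y → False := by
    intro y hy hxy hzy
    have h2 := h.rc y (hE hx) hz hxy hzy
    refine hzE (h2.mem_closed hx fun a ha b hb hab => ?_)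
    by_contra hbE
    exact hb.2 (hy b ⟨⟨hbE, a, ha, hab⟩, hb.1⟩)
  by_cases h0 : (Nb G E \ F).Nonempty
  · obtain ⟨y, hy⟩ := h0
    refine hcl y (fun b hb => ?_) (fun e' => hy.1.1 (e' ▸ hx)) (fun e' => hzN (e' ▸ hy.1))
    exact (ncard_le_one_iff (toFinite _)).1 h1 hb hy
  · rw [not_nonempty_iff_eq_empty] at h0
    have h2 := h.con.2 x (hE hx) z hz
    refine hzE (h2.mem_closed hx fun a ha b hb hab => ?_)
    by_contra hbE
    have h3 : b ∈ Nb G E \ F := ⟨⟨hbE, a, ha, hab⟩, hb⟩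
    rw [h0] at h3
    exact h3

/-- The obstruction to adding `k` to `F`. -/
structure Obs (G : SimpleGraph V) (K F : Set V) (k g : V) (E : Set V) : Prop where
  kK : k ∈ K \ F
  ne : E.Nonempty
  dis : ∀ x ∈ E, x ∉ K
  disF : ∀ x ∈ E, x ∉ F
  nb : Nb G E \ F ⊆ {k, g}
  mem : k ∈ Nb G E
  f : ∃ f ∈ F, f ∈ Nb G E

theorem exists_obs [Finite V] (hG : Cn3 G) (hF : Sol G Fᶜ) (hK : ∀ a ∈ K, ∀ b ∈ K, a ≠ b → G.Adj a b)
    (hk : k ∈ K \ F) (hbad : ¬ Sol G (insert k F)ᶜ) (h4 : 4 ≤ (K \ F).ncard) :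
    ∃ g E, Obs G K F k g E := by
  -- the cutvertex
  have hcon : Con G (insert k F)ᶜ := by
    have h1 : (insert k F)ᶜ = Fᶜ \ {k} := by
      ext z
      simp only [mem_compl_iff, mem_insert_iff, mem_sdiff, mem_singleton_iff]
      tauto
    rw [h1]
    obtain ⟨k', hk', hkk'⟩ : ∃ k' ∈ K \ F, k' ≠ k := by
      by_contra hcon
      push Not at hcon
      have h2 : K \ F ⊆ {k} := fun z hz => hcon z hz
      have h3 := ncard_le_ncard h2 (toFinite _)
      rw [ncard_singleton] at h3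
      omega
    exact ⟨⟨k', hk'.2, hkk'⟩, fun a ha b hb => hF.rc k ha.1 hb.1 ha.2 hb.2⟩
  obtain ⟨g, hg, a, ha, b, hb, hag, hbg, hab⟩ : ∃ g ∈ (insert k F)ᶜ, ∃ a ∈ (insert k F)ᶜ,
      ∃ b ∈ (insert k F)ᶜ, a ≠ g ∧ b ≠ g ∧ ¬ Rc G ((insert k F)ᶜ \ {g}) a b := by
    by_contra hcon'
    push Not at hcon'
    exact hbad ⟨hcon, fun y hy a ha b hb hay hby => hcon' y hy a ha b hb hay hby⟩
  have hkF : k ∉ F := hk.2
  -- the component without vertices of `K`
  have key : ∀ a b, a ∈ (insert k F)ᶜ → b ∈ (insert k F)ᶜ → a ≠ g → b ≠ g →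
      ¬ Rc G ((insert k F)ᶜ \ {g}) a b →
      (∀ x ∈ cmp G ((insert k F)ᶜ \ {g}) a, x ∉ K) → ∃ g E, Obs G K F k g E := by
    intro a b ha hb hag hbg hab hx
    have hnb : Nb G (cmp G ((insert k F)ᶜ \ {g}) a) ⊆ insert g (insert k F) := by
      intro y hy
      have h1 := notMem_of_mem_nb_cmp hy
      by_contra hcon'
      exact h1 ⟨fun h' => hcon' (Or.inr h'), fun h' => hcon' (Or.inl h')⟩
    have hbE : b ∉ cmp G ((insert k F)ᶜ \ {g}) a := hab
    have hbN : b ∉ Nb G (cmp G ((insert k F)ᶜ \ {g}) a) := fun h' =>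
      (hnb h').elim hbg hb
    have haE : a ∈ cmp G ((insert k F)ᶜ \ {g}) a := mem_cmp_self ⟨ha, hag⟩
    have hEF : ∀ x ∈ cmp G ((insert k F)ᶜ \ {g}) a, x ∉ F := fun x hx' h' =>
      (cmp_subset hx').1 (Or.inr h')
    have hnb2 : Nb G (cmp G ((insert k F)ᶜ \ {g}) a) \ F ⊆ {k, g} := by
      rintro y ⟨hy, hyF⟩
      rcases hnb hy with h1 | h1 | h1
      · exact Or.inr h1
      · exact Or.inl h1
      · exact absurd h1 hyF
    have h2 := two_nb hF (fun x hx' => hEF x hx') ⟨a, haE⟩ (fun h' => hb (Or.inr h')) hbE hbN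
    have h3 := hG.le_nb haE hbE hbN
    refine ⟨g, _, hk, ⟨a, haE⟩, hx, hEF, hnb2, ?_, ?_⟩
    · by_contra hcon'
      have h5 : Nb G (cmp G ((insert k F)ᶜ \ {g}) a) \ F ⊆ {g} := by
        intro y hy
        rcases hnb2 hy with h1 | h1
        · exact absurd (h1 ▸ hy.1) hcon'
        · exact h1
      have h6 := ncard_le_ncard h5 (toFinite _)
      rw [ncard_singleton] at h6
      omega
    · by_contra hcon'
      push Not at hcon'
      have h5 : Nb G (cmp G ((insert k F)ᶜ \ {g}) a) ⊆ {k, g} := by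
        intro y hy
        exact hnb2 ⟨hy, fun h' => hcon' y h' hy⟩
      have h6 := ncard_le_ncard h5 (toFinite _)
      have h7 := ncard_insert_le k ({g} : Set V)
      rw [ncard_singleton] at h7
      omega
  by_cases hx : ∀ x ∈ cmp G ((insert k F)ᶜ \ {g}) a, x ∉ K
  · exact key a b ha hb hag hbg hab hx
  · push Not at hx
    obtain ⟨x, hx, hxK⟩ := hx
    refine key b a hb ha hbg hag (fun h' => hab h'.symm) ?_
    intro y hy hyK
    have hxy : Rc G ((insert k F)ᶜ \ {g}) x y := by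
      by_cases hne : x = y
      · subst hne
        exact Rc.refl (cmp_subset hx)
      · exact Rc.adj (cmp_subset hx) (cmp_subset hy) (hK x hxK y hyK hne)
    exact hab ((Rc.trans hx hxy).trans (Rc.symm hy))

/-- Uncrossing. -/
theorem uncross [Finite V] (hF : Sol G Fᶜ) (hE : E ⊆ Fᶜ) (hE' : E' ⊆ Fᶜ) (hz : z ∉ F)
    (hzE : z ∉ E) (hzN : z ∉ Nb G E) (h2 : (Nb G E \ F).ncard ≤ 2) (h2' : (Nb G E' \ F).ncard ≤ 2)
    (hc : x ∈ E) (hc' : y ∈ E') (hxy : x = y ∨ G.Adj x y) :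
    (Nb G (E ∪ E') \ F).ncard ≤ 2 := by
  by_cases hne : (E ∩ E').Nonempty
  · have h3 := Wb.nb_submod G F E E'
    have h4 := two_nb hF (inter_subset_left.trans hE) hne hz (fun h' => hzE h'.1) (by
      rintro ⟨h5, a, ha, haz⟩
      exact hzN ⟨hzE, a, ha.1, haz⟩)
    omega
  · rw [not_nonempty_iff_eq_empty] at hne
    have hdis : ∀ v, v ∈ E → v ∉ E' := fun v hv hv' => by
      have : v ∈ E ∩ E' := ⟨hv, hv'⟩
      rw [hne] at this
      exact this
    rcases hxy with rfl | hxy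
    · exact absurd hc' (hdis x hc)
    · have hyN : y ∈ Nb G E \ F := ⟨⟨fun h' => hdis y h' hc', x, hc, hxy⟩, hE' hc'⟩
      have hxN : x ∈ Nb G E' \ F := ⟨⟨hdis x hc, y, hc', hxy.symm⟩, hE hc⟩
      have h3 : Nb G (E ∪ E') \ F ⊆ ((Nb G E \ F) \ {y}) ∪ ((Nb G E' \ F) \ {x}) := by
        rintro v ⟨⟨hv, a, ha, hav⟩, hvF⟩
        rcases ha with ha | ha
        · exact Or.inl ⟨⟨⟨fun h' => hv (Or.inl h'), a, ha, hav⟩, hvF⟩,
            fun h' => hv (Or.inr (h' ▸ hc'))⟩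
        · exact Or.inr ⟨⟨⟨fun h' => hv (Or.inr h'), a, ha, hav⟩, hvF⟩,
            fun h' => hv (Or.inl (h' ▸ hc))⟩
      have h4 := ncard_le_ncard h3 (toFinite _)
      have h5 := ncard_union_le ((Nb G E \ F) \ {y}) ((Nb G E' \ F) \ {x})
      rw [ncard_sdiff_singleton_of_mem hyN, ncard_sdiff_singleton_of_mem hxN] at h5
      omega

/-- The step: one more edge at the vertex `u`. -/
theorem hub_step [Finite V] (hG : LineOf G e) (h3 : Cn3 G) (hF : Sol G Fᶜ)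
    (hFK : F ⊆ {x | u ∈ e x}) (hc : 2 * F.ncard + 7 ≤ ({x | u ∈ e x} \ F).ncard) :
    ∃ k ∈ {x | u ∈ e x} \ F, Sol G (insert k F)ᶜ := by
  classical
  by_contra hcon
  push Not at hcon
  set K : Set V := {x | u ∈ e x} with hKdef
  have hK : ∀ a ∈ K, ∀ b ∈ K, a ≠ b → G.Adj a b := fun a ha b hb hab =>
    (hG.adj a b).2 ⟨hab, u, ha, hb⟩
  have hobs : ∀ k ∈ K \ F, ∃ g E, Obs G K F k g E := fun k hk =>
    exists_obs h3 hF hK hk (hcon k hk) (by omega)
  choose! gg EE hO using hobs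
  have hf : ∀ k ∈ K \ F, ∃ f ∈ F, f ∈ Nb G (EE k) := fun k hk => (hO k hk).f
  choose! ff hffF hffN using hf
  have := Fintype.ofFinite V
  obtain ⟨f, hfF, hfc⟩ := Finset.exists_lt_card_fiber_of_mul_lt_card_of_maps_to
    (s := (K \ F).toFinset) (t := F.toFinset) (f := ff) (n := 2) (fun k hk => by
      rw [Set.mem_toFinset] at hk ⊢
      exact hffF k hk) (by
      rw [← ncard_eq_toFinset_card', ← ncard_eq_toFinset_card']
      omega)
  rw [Set.mem_toFinset] at hfF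
  obtain ⟨k1, k2, k3, hk1, hk2, hk3, h12, h13, h23⟩ := Finset.two_lt_card_iff.1 hfc
  rw [Finset.mem_filter, Set.mem_toFinset] at hk1 hk2 hk3
  have o1 := hO k1 hk1.1
  have o2 := hO k2 hk2.1
  have o3 := hO k3 hk3.1
  have n1 := hffN k1 hk1.1
  have n2 := hffN k2 hk2.1
  have n3 := hffN k3 hk3.1
  rw [hk1.2] at n1
  rw [hk2.2] at n2
  rw [hk3.2] at n3
  obtain ⟨-, c1, hc1, hcf1⟩ := n1
  obtain ⟨-, c2, hc2, hcf2⟩ := n2
  obtain ⟨-, c3, hc3, hcf3⟩ := n3
  have hfK : u ∈ e f := hFK hfF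
  obtain ⟨v, hv⟩ : ∃ v, e f = s(u, v) := ⟨_, (Sym2.other_spec hfK).symm⟩
  have hcv : ∀ c, c ∉ K → G.Adj c f → v ∈ e c := by
    intro c hc hcf
    obtain ⟨-, w, hw, hwf⟩ := (hG.adj c f).1 hcf
    rw [hv, Sym2.mem_iff] at hwf
    rcases hwf with rfl | rfl
    · exact absurd hw hc
    · exact hw
  have v1 := hcv c1 (o1.dis c1 hc1) hcf1
  have v2 := hcv c2 (o2.dis c2 hc2) hcf2
  have v3 := hcv c3 (o3.dis c3 hc3) hcf3
  have hadj : ∀ c c', v ∈ e c → v ∈ e c' → c = c' ∨ G.Adj c c' := by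
    intro c c' h1 h2
    by_cases hne : c = c'
    · exact Or.inl hne
    · exact Or.inr ((hG.adj c c').2 ⟨hne, v, h1, h2⟩)
  -- a vertex of `K` which is not involved
  obtain ⟨z, hz, hzn⟩ : ∃ z ∈ K \ F, z ∉ ({k1, k2, k3, gg k1, gg k2, gg k3} : Set V) := by
    by_contra hcon'
    push Not at hcon'
    have h4 : K \ F ⊆ ({k1, k2, k3, gg k1, gg k2, gg k3} : Set V) := fun z hz => hcon' z hz
    have h5 := ncard_le_ncard h4 (toFinite _)
    have e1 := ncard_insert_le k1 ({k2, k3, gg k1, gg k2, gg k3} : Set V)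
    have e2 := ncard_insert_le k2 ({k3, gg k1, gg k2, gg k3} : Set V)
    have e3 := ncard_insert_le k3 ({gg k1, gg k2, gg k3} : Set V)
    have e4 := ncard_three_le (gg k1) (gg k2) (gg k3)
    omega
  have hzE : ∀ k ∈ K \ F, z ≠ k → z ≠ gg k → z ∉ EE k ∧ z ∉ Nb G (EE k) := by
    intro k hk hzk hzg
    refine ⟨fun h' => (hO k hk).dis z h' hz.1, fun h' => ?_⟩
    rcases (hO k hk).nb ⟨h', hz.2⟩ with h'' | h''
    · exact hzk h''
    · exact hzg h''
  simp only [mem_insert_iff, mem_singleton_iff, not_or] at hzn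
  obtain ⟨z1, z2, z3, z4, z5, z6⟩ := hzn
  obtain ⟨a1, b1⟩ := hzE k1 hk1.1 z1 z4
  obtain ⟨a2, b2⟩ := hzE k2 hk2.1 z2 z5
  have hle : ∀ k ∈ K \ F, (Nb G (EE k) \ F).ncard ≤ 2 := by
    intro k hk
    have h4 := ncard_le_ncard (hO k hk).nb (toFinite _)
    have h5 := ncard_insert_le k ({gg k} : Set V)
    rw [ncard_singleton] at h5
    omega
  have hsub : ∀ k ∈ K \ F, EE k ⊆ Fᶜ := fun k hk x hx => (hO k hk).disF x hx
  have u1 := uncross hF (hsub k1 hk1.1) (hsub k2 hk2.1) hz.2 a1 b1 (hle k1 hk1.1) (hle k2 hk2.1)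
    hc1 hc2 (hadj c1 c2 v1 v2)
  have u2 := uncross hF (E := EE k1 ∪ EE k2) (union_subset (hsub k1 hk1.1) (hsub k2 hk2.1))
    (hsub k3 hk3.1) hz.2 (fun h' => h'.elim a1 a2) (by
      rintro ⟨h4, a, ha, haz⟩
      rcases ha with ha | ha
      · exact b1 ⟨a1, a, ha, haz⟩
      · exact b2 ⟨a2, a, ha, haz⟩) u1 (hle k3 hk3.1) (Or.inl hc1) hc3 (hadj c1 c3 v1 v3)
  have hmem : ∀ k ∈ K \ F, ∀ D : Set V, EE k ⊆ D → (∀ x ∈ D, x ∉ K) → k ∈ Nb G D \ F := by
    intro k hk D hD hDK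
    obtain ⟨-, a, ha, hak⟩ := (hO k hk).mem
    exact ⟨⟨fun h' => hDK k h' hk.1, a, hD ha, hak⟩, hk.2⟩
  have hDK : ∀ x ∈ (EE k1 ∪ EE k2) ∪ EE k3, x ∉ K := by
    rintro x ((hx | hx) | hx)
    · exact o1.dis x hx
    · exact o2.dis x hx
    · exact o3.dis x hx
  have h5 : ({k1, k2, k3} : Set V) ⊆ Nb G ((EE k1 ∪ EE k2) ∪ EE k3) \ F := by
    rintro x (rfl | rfl | hx)
    · exact hmem _ hk1.1 _ (fun y hy => Or.inl (Or.inl hy)) hDK
    · exact hmem _ hk2.1 _ (fun y hy => Or.inl (Or.inr hy)) hDK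
    · rw [mem_singleton_iff] at hx
      subst hx
      exact hmem _ hk3.1 _ (fun y hy => Or.inr hy) hDK
  have h6 := ncard_le_ncard h5 (toFinite _)
  rw [ncard_three h12 h13 h23] at h6
  omega

/-- A vertex of large degree. -/
theorem hub_line [Finite V] (hG : LineOf G e) (h3 : Cn3 G) (hn : 1 ≤ n)
    (hc : 3 * n + 7 ≤ {x | u ∈ e x}.ncard) : ∃ S, Good G n S := by
  have hind : ∀ m ≤ n, ∃ F ⊆ {x | u ∈ e x}, F.ncard = m ∧ Sol G Fᶜ := by
    intro m
    induction m with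
    | zero =>
      intro _
      refine ⟨∅, empty_subset _, ncard_empty _, ?_⟩
      have hcard := h3.1
      have hpos : 0 < Nat.card V := by omega
      obtain ⟨⟨v⟩, -⟩ := Nat.card_pos_iff.1 hpos
      rw [compl_empty]
      refine ⟨⟨⟨v, mem_univ _⟩, fun a _ b _ => h3.rc_univ a b⟩, fun y _ a _ b _ hay hby => ?_⟩
      have h1 := h3.2 {y} (by rw [ncard_singleton]; omega) a b hay hby
      refine h1.mono fun z hz => ⟨mem_univ _, hz⟩
    | succ m ih =>
      intro hm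
      obtain ⟨F, hFK, hFc, hFs⟩ := ih (by omega)
      have h1 : ({x | u ∈ e x} \ F).ncard + F.ncard = {x | u ∈ e x}.ncard :=
        ncard_sdiff_add_ncard_of_subset hFK (toFinite _)
      obtain ⟨k, hk, hks⟩ := hub_step hG h3 hFs hFK (by omega)
      refine ⟨insert k F, insert_subset hk.1 hFK, ?_, hks⟩
      rw [ncard_insert_of_notMem hk.2 (toFinite _), hFc]
  obtain ⟨F, hFK, hFc, hFs⟩ := hind n le_rfl
  refine ⟨F, hFc, ?_, hFs, ?_⟩
  · refine ⟨?_, fun a ha b hb => ?_⟩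
    · rw [← ncard_pos (toFinite _)]
      omega
    · by_cases hab : a = b
      · subst hab
        exact Rc.refl ha
      · exact Rc.adj ha hb ((hG.adj a b).2 ⟨hab, u, hFK ha, hFK hb⟩)
  · have h1 : ({x | u ∈ e x} \ F).ncard + F.ncard = {x | u ∈ e x}.ncard :=
      ncard_sdiff_add_ncard_of_subset hFK (toFinite _)
    have h2 : ({x | u ∈ e x} \ F).ncard ≤ Fᶜ.ncard :=
      ncard_le_ncard (fun x hx => hx.2) (toFinite _)
    omega

end Pool.Agent.Lib.MP_d9512b_co.LG63
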