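import Pool.Agent.Lib.MP_d9512b_co.T3.Fin
import Pool.Agent.Lib.MP_d9512b_co.CC.St

set_option autoImplicit false
set_option linter.unusedSectionVars false

/-!
Line graphs: at least half of the sizes occur as sizes of states at a junction of the line graph of
a multigraph without vertices of degree two. No condition on the other degrees.
-/

namespace Pool.Agent.Lib.MP_d9512b_co.LG63

open Set T3

/-- `G` is the line graph of the loopless multigraph with the vertex set `U` and the edge set `V`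
(the edge `x` has the ends `e x`), and no vertex has degree two. -/
structure LineOf {V U : Type*} (G : SimpleGraph V) (e : V → Sym2 U) : Prop where
  nd : ∀ x, ¬ (e x).IsDiag
  adj : ∀ x y, G.Adj x y ↔ x ≠ y ∧ ∃ u, u ∈ e x ∧ u ∈ e y
  deg : ∀ u, {x | u ∈ e x}.ncard ≠ 2

/-- The edges outside of `S` at the vertex `u`. -/
def Dg {V U : Type*} (e : V → Sym2 U) (S : Set V) (u : U) : Set V := {f | f ∉ S ∧ u ∈ e f}

/-- The live vertices: they are touched by `S`, they are ends of an edge of the rest of the region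
and of at least two edges outside of `S`. -/
def Lv {V U : Type*} (e : V → Sym2 U) (W S : Set V) : Set U :=
  {u | (∃ s ∈ S, u ∈ e s) ∧ (∃ f ∈ W \ S, u ∈ e f) ∧ 2 ≤ (Dg e S u).ncard}

variable {V U : Type} {G : SimpleGraph V} {e : V → Sym2 U} {W S T F E L R : Set V}
  {c t f g x y w : V} {u : U} {n : ℕ}

/-- The thread condition. -/
structure Thd (G : SimpleGraph V) (W : Set V) (c : V) (S T : Set V) : Prop where
  st : St G W c S
  sub : T ⊆ W \ S
  two : 2 ≤ T.ncard
  deg : ∀ t ∈ T, ec G {t} Sᶜ ≤ 2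
  out : ec G T (S ∪ T)ᶜ ≤ 2
  one : ∀ z ∉ S ∪ T, ec G T {z} ≤ 1

theorem Thd.nb_le [Finite V] (h : Thd G W c S T) (ht : t ∈ T) :
    {f | f ∉ S ∧ G.Adj t f}.ncard = 2 := by
  have h1 := h.deg t ht
  rw [ec_singleton_eq] at h1
  have h2 := h.st.two {t} (singleton_subset_iff.2 (h.sub ht)) (singleton_nonempty t)
  have h3 : Nb G {t} \ S ⊆ {f | f ∉ S ∧ G.Adj t f} := by
    rintro z ⟨⟨-, a, ha, haz⟩, hzS⟩
    rw [mem_singleton_iff] at ha
    subst ha
    exact ⟨hzS, haz⟩
  have h4 := ncard_le_ncard h3 (toFinite _)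
  have h5 : {f | f ∉ S ∧ G.Adj t f}.ncard ≤ 2 := h1
  omega

/-- Each vertex of a thread has a neighbour in the thread. -/
theorem Thd.exists_adj [Finite V] (h : Thd G W c S T) (ht : t ∈ T) : ∃ f ∈ T, G.Adj t f := by
  by_contra hcon
  push Not at hcon
  have hne : (T \ {t}).Nonempty := by
    rw [← ncard_pos (toFinite _), ncard_sdiff_singleton_of_mem ht]
    have := h.two
    omega
  have h1 := h.st.two (T \ {t}) (sdiff_subset.trans h.sub) hne
  have h2 := h.st.two {t} (singleton_subset_iff.2 (h.sub ht)) (singleton_nonempty t)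
  have h3 : (Nb G (T \ {t}) \ S).ncard ≤ ec G (T \ {t}) (S ∪ T)ᶜ := by
    refine (ncard_nb_le_ec (S := S) (T \ {t})).trans ?_
    have h5 : ec G (T \ {t}) (S ∪ T \ {t})ᶜ ≤ ec G (T \ {t}) ((S ∪ T)ᶜ ∪ {t}) := by
      refine ec_mono_right ?_
      intro z hz
      by_cases hzt : z = t
      · exact Or.inr hzt
      · refine Or.inl fun hz' => hz ?_
        rcases hz' with hz' | hz'
        · exact Or.inl hz'
        · exact Or.inr ⟨hz', hzt⟩
    have h6 : ec G (T \ {t}) {t} = 0 := by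
      rw [ec_eq_zero]
      intro a ha b hb hab
      rw [mem_singleton_iff] at hb
      subst hb
      exact hcon a ha.1 hab.symm
    have h7 := ec_union_right_le (G := G) (A := T \ {t}) (B := (S ∪ T)ᶜ) (B' := {t})
    omega
  have h4 : (Nb G {t} \ S).ncard ≤ ec G {t} (S ∪ T)ᶜ := by
    refine (ncard_nb_le_ec (S := S) {t}).trans ?_
    have h5 : ec G {t} (S ∪ {t})ᶜ ≤ ec G {t} ((S ∪ T)ᶜ ∪ T) := by
      refine ec_mono_right ?_
      intro z hz
      by_cases hzT : z ∈ T
      · exact Or.inr hzT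
      · exact Or.inl fun hz' => hz'.elim (fun h' => hz (Or.inl h')) hzT
    have h6 : ec G {t} T = 0 := by
      rw [ec_eq_zero]
      intro a ha b hb hab
      rw [mem_singleton_iff] at ha
      subst ha
      exact hcon b hb hab
    have h7 := ec_union_right_le (G := G) (A := {t}) (B := (S ∪ T)ᶜ) (B' := T)
    omega
  have h5 : ec G T (S ∪ T)ᶜ = ec G {t} (S ∪ T)ᶜ + ec G (T \ {t}) (S ∪ T)ᶜ :=
    ec_split_left (singleton_subset_iff.2 ht)
  have := h.out
  omega

/-- At an end of an edge of a thread there is at most one other edge outside of `S`. -/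
theorem Thd.star [Finite V] (h : Thd G W c S T) (hG : LineOf G e) (ht : t ∈ T) (hu : u ∈ e t)
    (hf : f ∉ S) (hg : g ∉ S) (huf : u ∈ e f) (hug : u ∈ e g) (hft : f ≠ t) (hgt : g ≠ t) :
    f = g := by
  by_contra hfg
  have key : ∀ a ∈ T, ∀ p q, p ∉ S → q ∉ S → G.Adj a p → G.Adj a q → p ≠ q →
      ∀ r, r ∉ S → G.Adj a r → r = p ∨ r = q := by
    intro a ha p q hp hq hap haq hpq r hr har
    have h1 := h.nb_le ha
    have h2 : ({p, q} : Set V) ⊆ {f | f ∉ S ∧ G.Adj a f} := by
      rintro z (rfl | hz)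
      · exact ⟨hp, hap⟩
      · rw [mem_singleton_iff] at hz
        subst hz
        exact ⟨hq, haq⟩
    have h3 := eq_of_subset_of_ncard_le h2 (by rw [h1, ncard_pair hpq]) (toFinite _)
    have h4 : r ∈ ({p, q} : Set V) := by
      rw [h3]
      exact ⟨hr, har⟩
    exact h4
  have hatf : G.Adj t f := (hG.adj t f).2 ⟨hft.symm, u, hu, huf⟩
  have hatg : G.Adj t g := (hG.adj t g).2 ⟨hgt.symm, u, hu, hug⟩
  have hafg : G.Adj f g := (hG.adj f g).2 ⟨hfg, u, huf, hug⟩
  have htS : t ∉ S := (h.sub ht).2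
  -- the main case: `f` is in the thread
  have main : ∀ p q, p ∉ S → q ∉ S → G.Adj t p → G.Adj t q → G.Adj p q → p ∈ T → False := by
    intro p q hp hq htp htq hpq hpT
    by_cases hqT : q ∈ T
    · have h1 := h.st.two {t, p, q} (by
        rintro z (rfl | rfl | hz)
        · exact h.sub ht
        · exact h.sub hpT
        · rw [mem_singleton_iff] at hz
          subst hz
          exact h.sub hqT) ⟨t, Or.inl rfl⟩
      have h2 : Nb G {t, p, q} \ S = ∅ := by
        rw [eq_empty_iff_forall_notMem]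
        rintro z ⟨⟨hz, a, ha, haz⟩, hzS⟩
        apply hz
        rcases ha with rfl | rfl | ha
        · rcases key a ht p q hp hq htp htq hpq.ne z hzS haz with rfl | rfl
          · exact Or.inr (Or.inl rfl)
          · exact Or.inr (Or.inr rfl)
        · rcases key a hpT t q htS hq htp.symm hpq htq.ne z hzS haz with rfl | rfl
          · exact Or.inl rfl
          · exact Or.inr (Or.inr rfl)
        · rw [mem_singleton_iff] at ha
          subst ha
          rcases key a hqT t p htS hp htq.symm hpq.symm htp.ne z hzS haz with rfl | rfl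
          · exact Or.inl rfl
          · exact Or.inr (Or.inl rfl)
      rw [h2, ncard_empty] at h1
      omega
    · have h1 := h.one q (fun h' => h'.elim hq hqT)
      have h2 : ec G {t, p} {q} ≤ ec G T {q} := ec_mono_left (by
        rintro z (rfl | hz)
        · exact ht
        · rw [mem_singleton_iff] at hz
          subst hz
          exact hpT)
      have h3 := two_le_ec (G := G) (A := {t, p}) (B := {q}) (x := t) (y := q) (u := p) (v := q)
        (Or.inl rfl) rfl htq (Or.inr rfl) rfl hpq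
      have h4 := h3 (Or.inl htp.ne)
      omega
  obtain ⟨r, hrT, htr⟩ := h.exists_adj ht
  rcases key t ht f g hf hg hatf hatg hfg r (h.sub hrT).2 htr with rfl | rfl
  · exact main r g hf hg hatf hatg hafg hrT
  · exact main r f hg hf hatg hatf hafg.symm hrT

/-- The ends of an edge. -/
def Es {V U : Type*} (e : V → Sym2 U) (x : V) : Set U := {u | u ∈ e x}

theorem LineOf.es_ncard (hG : LineOf G e) (x : V) : (Es e x).ncard = 2 := by
  have h1 := hG.nd x
  unfold Es
  induction h : e x with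
  | _ a b =>
    rw [h, Sym2.mk_isDiag_iff] at h1
    have h2 : {u | u ∈ s(a, b)} = ({a, b} : Set U) := by
      ext u
      simp
    rw [h2, ncard_pair h1]

/-- The ends of the edges of a thread have exactly two edges outside of `S`. -/
theorem Thd.dg [Finite V] [Finite U] (h : Thd G W c S T) (hG : LineOf G e) (ht : t ∈ T)
    (hu : u ∈ e t) : (Dg e S u).ncard = 2 := by
  have htS : t ∉ S := (h.sub ht).2
  have hle : ∀ u' ∈ e t, (Dg e S u' \ {t}).ncard ≤ 1 := by
    intro u' hu'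
    rw [ncard_le_one_iff]
    rintro a b ⟨⟨ha, hua⟩, hat⟩ ⟨⟨hb, hub⟩, hbt⟩
    exact h.star hG ht hu' ha hb hua hub hat hbt
  obtain ⟨v, huv⟩ : ∃ v, e t = s(u, v) := ⟨_, (Sym2.other_spec hu).symm⟩
  have hv : v ∈ e t := by
    rw [huv]
    exact Sym2.mem_mk_right u v
  have h1 := h.nb_le ht
  have h2 : {f | f ∉ S ∧ G.Adj t f} ⊆ (Dg e S u \ {t}) ∪ (Dg e S v \ {t}) := by
    rintro f ⟨hfS, htf⟩
    obtain ⟨hne, w, hw, hwf⟩ := (hG.adj t f).1 htf
    rw [huv, Sym2.mem_iff] at hw
    rcases hw with rfl | rfl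
    · exact Or.inl ⟨⟨hfS, hwf⟩, hne.symm⟩
    · exact Or.inr ⟨⟨hfS, hwf⟩, hne.symm⟩
  have h3 := ncard_le_ncard h2 (toFinite _)
  have h4 := ncard_union_le (Dg e S u \ {t}) (Dg e S v \ {t})
  have h5 := hle u hu
  have h6 := hle v hv
  have h7 : (Dg e S u \ {t}).ncard + 1 = (Dg e S u).ncard :=
    ncard_sdiff_singleton_add_one ⟨htS, hu⟩ (toFinite _)
  omega

/-- The ends of the edges of a set. -/
def Xt {V U : Type*} (e : V → Sym2 U) (T : Set V) : Set U := {u | ∃ t ∈ T, u ∈ e t}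

/-- A thread has more ends than edges. -/
theorem Thd.xt [Finite V] [Finite U] (h : Thd G W c S T) (hG : LineOf G e) :
    T.ncard + 1 ≤ (Xt e T).ncard := by
  classical
  have := Fintype.ofFinite V
  have := Fintype.ofFinite U
  have hTne : T.Nonempty := by
    rw [← ncard_pos (toFinite _)]
    have := h.two
    omega
  have h1 := h.st.two T h.sub hTne
  obtain ⟨p, hp, q, hq, hpq⟩ := (one_lt_ncard (toFinite _)).1 h1
  have hX : ∀ x ∈ Nb G T, ∃ u ∈ Xt e T, u ∈ e x := by
    rintro x ⟨-, a, ha, hax⟩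
    obtain ⟨-, u, hu, hux⟩ := (hG.adj a x).1 hax
    exact ⟨u, ⟨a, ha, hu⟩, hux⟩
  obtain ⟨up, hup, hupe⟩ := hX p hp.1
  obtain ⟨uq, huq, huqe⟩ := hX q hq.1
  have hTS : Disjoint T.toFinset {p, q} := by
    rw [Finset.disjoint_left]
    intro z hz hz'
    rw [Set.mem_toFinset] at hz
    rcases Finset.mem_insert.1 hz' with rfl | hz'
    · exact hp.1.1 hz
    · rw [Finset.mem_singleton] at hz'
      subst hz'
      exact hq.1.1 hz
  have h2 := Finset.sum_card_bipartiteAbove_eq_sum_card_bipartiteBelow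
    (s := T.toFinset ∪ {p, q}) (t := (Xt e T).toFinset) (fun f u => u ∈ e f)
  have h3 : ∑ u ∈ (Xt e T).toFinset,
      ((T.toFinset ∪ {p, q}).bipartiteBelow (fun f u => u ∈ e f) u).card ≤
      ∑ u ∈ (Xt e T).toFinset, 2 := by
    refine Finset.sum_le_sum fun u hu => ?_
    rw [Set.mem_toFinset] at hu
    obtain ⟨t, ht, hut⟩ := hu
    rw [← h.dg hG ht hut, ← ncard_coe_finset]
    refine ncard_le_ncard ?_ (toFinite _)
    intro f hf
    rw [Finset.mem_coe, Finset.mem_bipartiteBelow, Finset.mem_union, Set.mem_toFinset,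
      Finset.mem_insert, Finset.mem_singleton] at hf
    refine ⟨?_, hf.2⟩
    rcases hf.1 with hf | rfl | rfl
    · exact (h.sub hf).2
    · exact hp.2
    · exact hq.2
  have h4 : 2 * T.toFinset.card + 2 ≤ ∑ f ∈ T.toFinset ∪ {p, q},
      ((Xt e T).toFinset.bipartiteAbove (fun f u => u ∈ e f) f).card := by
    rw [Finset.sum_union hTS, Finset.sum_pair hpq]
    have h5 : ∑ f ∈ T.toFinset, 2 ≤ ∑ f ∈ T.toFinset,
        ((Xt e T).toFinset.bipartiteAbove (fun f u => u ∈ e f) f).card := by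
      refine Finset.sum_le_sum fun f hf => ?_
      rw [Set.mem_toFinset] at hf
      rw [← hG.es_ncard f, ← ncard_coe_finset]
      refine ncard_le_ncard ?_ (toFinite _)
      intro u hu
      rw [Finset.mem_coe, Finset.mem_bipartiteAbove, Set.mem_toFinset]
      exact ⟨⟨f, hf, hu⟩, hu⟩
    have h6 : 1 ≤ ((Xt e T).toFinset.bipartiteAbove (fun f u => u ∈ e f) p).card :=
      Finset.card_pos.2 ⟨up, by
        rw [Finset.mem_bipartiteAbove, Set.mem_toFinset]
        exact ⟨hup, hupe⟩⟩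
    have h7 : 1 ≤ ((Xt e T).toFinset.bipartiteAbove (fun f u => u ∈ e f) q).card :=
      Finset.card_pos.2 ⟨uq, by
        rw [Finset.mem_bipartiteAbove, Set.mem_toFinset]
        exact ⟨huq, huqe⟩⟩
    rw [Finset.sum_const, smul_eq_mul] at h5
    omega
  rw [Finset.sum_const, smul_eq_mul] at h3
  rw [ncard_eq_toFinset_card' T, ncard_eq_toFinset_card' (Xt e T)]
  omega

/-- A single step makes at most one vertex live. -/
theorem lv_single [Finite V] [Finite U] (hG : LineOf G e) (ht : t ∈ Nb G S) :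
    (Lv e W (S ∪ {t})).ncard ≤ (Lv e W S).ncard + 1 := by
  obtain ⟨-, s, hs, hst⟩ := ht
  obtain ⟨-, a, has, hat⟩ := (hG.adj s t).1 hst
  obtain ⟨b, hab⟩ : ∃ b, e t = s(a, b) := ⟨_, (Sym2.other_spec hat).symm⟩
  have h1 : Lv e W (S ∪ {t}) ⊆ insert b (Lv e W S) := by
    rintro u ⟨⟨s', hs', hus'⟩, ⟨f, hf, huf⟩, h2⟩
    by_cases hub : u = b
    · exact Or.inl hub
    · refine Or.inr ⟨?_, ⟨f, ⟨hf.1, fun h' => hf.2 (Or.inl h')⟩, huf⟩, ?_⟩
      · rcases hs' with hs' | hs'
        · exact ⟨s', hs', hus'⟩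
        · rw [mem_singleton_iff] at hs'
          subst hs'
          rw [hab, Sym2.mem_iff] at hus'
          rw [hus'.resolve_right hub]
          exact ⟨s, hs, has⟩
      · refine h2.trans (ncard_le_ncard ?_ (toFinite _))
        rintro x ⟨hx, hux⟩
        exact ⟨fun h' => hx (Or.inl h'), hux⟩
  exact (ncard_le_ncard h1 (toFinite _)).trans (ncard_insert_le _ _)

/-- A thread kills all its ends. -/
theorem Thd.lv [Finite V] [Finite U] (h : Thd G W c S T) (hG : LineOf G e) :
    (Lv e W (S ∪ T)).ncard + T.ncard + 1 ≤ (Lv e W S).ncard := by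
  have h1 : Xt e T ⊆ Lv e W S := by
    rintro u ⟨t, ht, hut⟩
    have h2 := h.dg hG ht hut
    refine ⟨?_, ⟨t, h.sub ht, hut⟩, by omega⟩
    by_contra hcon
    push Not at hcon
    have h3 : {x | u ∈ e x} = Dg e S u := by
      ext x
      exact ⟨fun hx => ⟨fun h' => hcon x h' hx, hx⟩, fun hx => hx.2⟩
    exact hG.deg u (by rw [h3, h2])
  have h2 : Lv e W (S ∪ T) ⊆ Lv e W S \ Xt e T := by
    rintro u ⟨⟨s', hs', hus'⟩, ⟨f, hf, huf⟩, h3⟩
    have hnX : u ∉ Xt e T := by
      rintro ⟨t, ht, hut⟩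
      have h4 := h.dg hG ht hut
      have h5 : Dg e (S ∪ T) u ⊆ Dg e S u \ {t} := by
        rintro x ⟨hx, hux⟩
        exact ⟨⟨fun h' => hx (Or.inl h'), hux⟩, fun h' => hx (Or.inr (h' ▸ ht))⟩
      have h6 := ncard_le_ncard h5 (toFinite _)
      rw [ncard_sdiff_singleton_of_mem (show t ∈ Dg e S u from ⟨(h.sub ht).2, hut⟩)] at h6
      omega
    refine ⟨⟨?_, ⟨f, ⟨hf.1, fun h' => hf.2 (Or.inl h')⟩, huf⟩, ?_⟩, hnX⟩
    · rcases hs' with hs' | hs'
      · exact ⟨s', hs', hus'⟩
      · exact absurd ⟨s', hs', hus'⟩ hnX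
    · refine h3.trans (ncard_le_ncard ?_ (toFinite _))
      rintro x ⟨hx, hux⟩
      exact ⟨fun h' => hx (Or.inl h'), hux⟩
  have h3 := ncard_le_ncard h2 (toFinite _)
  have h4 := ncard_sdiff_add_ncard_of_subset h1 (toFinite _)
  have h5 := h.xt hG
  omega

/-- The counting: sizes of states above `S`. -/
theorem count [Finite V] [Finite U] (hG : LineOf G e) (hR : Rgn G W c) (hn : n ≤ W.ncard) (m : ℕ) :
    ∀ S : Set V, St G W c S → n + 1 - S.ncard = m → S.ncard ≤ n →
      ∃ A : Finset ℕ, (∀ x ∈ A, S.ncard ≤ x ∧ x ≤ n ∧ ∃ S', St G W c S' ∧ S'.ncard = x) ∧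
        (2 * n + 2 ≤ 2 * A.card + 2 * S.ncard ∨
          n + 4 ≤ 2 * A.card + S.ncard + (Lv e W S).ncard) := by
  induction m using Nat.strong_induction_on with
  | _ m ih =>
  intro S hS hm hSn
  have hne := T3.St.diff_nonempty hS hR.cW hSn hn
  obtain ⟨T, hT, hST, hcase⟩ := stStep V G W c S hR hS hne
  have hdis : Disjoint S T := disjoint_left.2 fun x hx hx' => (hT hx').2 hx
  have hSTc : (S ∪ T).ncard = S.ncard + T.ncard := ncard_union_eq hdis (toFinite _) (toFinite _)
  -- the change of the number of live vertices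
  have hchg : (T.ncard = 1 ∧ (Lv e W (S ∪ T)).ncard ≤ (Lv e W S).ncard + 1) ∨
      (2 ≤ T.ncard ∧ (Lv e W (S ∪ T)).ncard + T.ncard + 1 ≤ (Lv e W S).ncard) := by
    rcases hcase with ⟨t, rfl, ht⟩ | ⟨hT2, h1, h2, h3⟩
    · exact Or.inl ⟨ncard_singleton t, lv_single hG ht⟩
    · exact Or.inr ⟨hT2, Thd.lv ⟨hS, hT, hT2, h1, h2, h3⟩ hG⟩
  by_cases hbig : n + 1 ≤ (S ∪ T).ncard
  · refine ⟨{S.ncard}, fun x hx => ?_, ?_⟩
    · rw [Finset.mem_singleton] at hx
      subst hx
      exact ⟨le_rfl, hSn, S, hS, rfl⟩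
    · rw [Finset.card_singleton]
      omega
  · obtain ⟨A, hA, hAc⟩ := ih (n + 1 - (S ∪ T).ncard) (by omega) (S ∪ T) hST rfl (by omega)
    have hnot : S.ncard ∉ A := fun h' => by
      have := (hA _ h').1
      omega
    refine ⟨insert S.ncard A, fun x hx => ?_, ?_⟩
    · rcases Finset.mem_insert.1 hx with rfl | hx
      · exact ⟨le_rfl, hSn, S, hS, rfl⟩
      · have h4 := hA x hx
        exact ⟨by omega, h4.2.1, h4.2.2⟩
    · rw [Finset.card_insert_of_notMem hnot]
      omega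

/-- One side of a junction. -/
theorem half [Finite V] [Finite U] (hG : LineOf G e) (h : Jn G L R w n) (hn : 1 ≤ n) :
    ∃ A : Finset ℕ, (∀ x ∈ A, 1 ≤ x ∧ x ≤ n ∧ ∃ S, St G L w S ∧ S.ncard = x) ∧
      n + 1 ≤ 2 * A.card := by
  obtain ⟨A, hA, hAc⟩ := count hG h.rL h.cL _ {w} h.rL.st_singleton rfl
    (by rw [ncard_singleton]; exact hn)
  refine ⟨A, fun x hx => ?_, ?_⟩
  · have := hA x hx
    rw [ncard_singleton] at this
    exact this
  · obtain ⟨o, ho, hwo⟩ := h.exists_adj hn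
    obtain ⟨-, a, haw, hao⟩ := (hG.adj w o).1 hwo
    obtain ⟨b, hab⟩ : ∃ b, e w = s(a, b) := ⟨_, (Sym2.other_spec haw).symm⟩
    have h1 : Lv e L {w} ⊆ {b} := by
      rintro u ⟨⟨s', hs', hus'⟩, ⟨f, hf, huf⟩, -⟩
      rw [mem_singleton_iff] at hs'
      subst hs'
      rw [hab, Sym2.mem_iff] at hus'
      rcases hus' with rfl | hus'
      · exfalso
        refine h.nad f hf.1 o ho ((hG.adj f o).2 ⟨fun e' => ?_, u, huf, hao⟩)
        exact disjoint_left.1 h.dis hf.1 (e' ▸ ho)
      · exact hus'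
    have h2 := ncard_le_ncard h1 (toFinite _)
    rw [ncard_singleton] at h2
    rw [ncard_singleton] at hAc
    omega

/-- Junctions of line graphs give good sets. -/
theorem jn_line [Finite V] [Finite U] (hG : LineOf G e) (h : Jn G L R w n) (hn : 1 ≤ n) :
    ∃ S, Good G n S := by
  obtain ⟨A, hA, hAc⟩ := half hG h hn
  obtain ⟨B, hB, hBc⟩ := half hG h.symm hn
  obtain ⟨x, hx, y, hy, hxy⟩ := pig2 (fun x hx => ⟨(hA x hx).1, (hA x hx).2.1⟩)
    (fun x hx => ⟨(hB x hx).1, (hB x hx).2.1⟩) (by omega : n + 1 ≤ A.card + B.card)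
  obtain ⟨-, -, S, hS, hSx⟩ := hA x hx
  obtain ⟨-, -, S', hS', hSy⟩ := hB y hy
  exact ⟨S ∪ S', h.good hS hS' (by omega)⟩

end Pool.Agent.Lib.MP_d9512b_co.LG63
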