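import Pool.Agent.Lib.MP_d9512b_co.LG.HubL
import Pool.Agent.Lib.MP_d9512b_co.T3.Loc
import Pool.Agent.Lib.MP_d9512b_co.T3.Second

set_option autoImplicit false
set_option linter.unusedSectionVars false

/-!
Line graphs: the theorem.
-/

namespace Pool.Agent.Lib.MP_d9512b_co.LG63

open Set T3

/-- Large 3-connected line graphs of multigraphs without vertices of degree two have good sets. -/
theorem exists_good (n : ℕ) (hn : 1 ≤ n) : ∃ N : ℕ, ∀ (V U : Type) [Finite V] [Finite U]
    (G : SimpleGraph V) (e : V → Sym2 U), N ≤ Nat.card V → Cn3 G → LineOf G e →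
    ∃ S, Good G n S := by
  obtain ⟨r, hr⟩ := stSL_of (stFar0 stStep) stSecond n hn
  refine ⟨(6 * n + 15) ^ r + 1, fun V U _ _ G e hc h3 hG => ?_⟩
  by_cases hub : ∃ x, 6 * n + 14 < (Nb G {x}).ncard
  · obtain ⟨x, hx⟩ := hub
    obtain ⟨a, b, hab⟩ : ∃ a b, e x = s(a, b) := by
      induction h : e x with
      | _ a b => exact ⟨a, b, rfl⟩
    have h1 : Nb G {x} ⊆ {y | a ∈ e y} ∪ {y | b ∈ e y} := by
      rintro y ⟨-, z, hz, hzy⟩
      rw [mem_singleton_iff] at hz
      subst hz
      obtain ⟨-, w, hw, hwy⟩ := (hG.adj z y).1 hzy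
      rw [hab, Sym2.mem_iff] at hw
      rcases hw with rfl | rfl
      · exact Or.inl hwy
      · exact Or.inr hwy
    have h2 := (ncard_le_ncard h1 (toFinite _)).trans (ncard_union_le _ _)
    by_cases ha : 3 * n + 7 ≤ {y | a ∈ e y}.ncard
    · exact hub_line hG h3 hn ha
    · exact hub_line hG h3 hn (u := b) (by omega)
  · push Not at hub
    have hcard := h3.1
    have hpos : 0 < Nat.card V := by omega
    obtain ⟨⟨u⟩, -⟩ := Nat.card_pos_iff.1 hpos
    obtain ⟨b, hb⟩ : ∃ b, ¬ Nr G u b r := by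
      by_contra hfar
      push Not at hfar
      have h1 := ball_card u (6 * n + 14) (fun x => h3.rc_univ u x) hub r
      have h2 : {x | lv G u x ≤ r + 1} = univ := by
        refine eq_univ_of_forall fun x => ?_
        obtain ⟨C, hC, huC, hxC, hCr⟩ := hfar x
        have := lv_le hC huC hxC
        rw [mem_ofPred_eq]
        omega
      rw [h2, ncard_univ] at h1
      have h3' : (6 * n + 14 + 1) ^ r = (6 * n + 15) ^ r := rfl
      omega
    obtain ⟨w, L, R, -, hJ⟩ := hr V G u b h3 hb
    exact jn_line hG hJ hn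

end Pool.Agent.Lib.MP_d9512b_co.LG63
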